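import Pool.Agent.helper98.FrogBridge

set_option autoImplicit false

open MeasureTheory ProbabilityTheory Filter Topology
open scoped ENNReal NNReal
open Pool.Agent.helper98.Frog

namespace Pool.Agent.Results.MP_82094e_pr.PolylogSusceptibility

universe u v

/-- **Polylogarithmic susceptibility of the frog model on bounded-degree graphs.**
For every degree bound `d` and every density `lam > 0` there is a constant `C > 0` such that for
every sequence of finite connected graphs `G n` of maximal degree at most `d` with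
`|V n| → ∞`, and any choice of origins `o n`, the susceptibility of the frog model of density
`lam` is at most `C (log |V n|)^5` with probability tending to one. -/
theorem result (d : ℕ) (lam : ℝ≥0) (hlam : 0 < lam) :
    ∃ C : ℝ, 0 < C ∧
      ∀ (V : ℕ → Type u) [∀ n, Fintype (V n)] [∀ n, DecidableEq (V n)]
        [∀ n, MeasurableSpace (V n)] [∀ n, DiscreteMeasurableSpace (V n)]
        (G : ∀ n, SimpleGraph (V n)) [∀ n, DecidableRel (G n).Adj] (o : ∀ n, V n)
        (Ω : ℕ → Type v) [∀ n, MeasurableSpace (Ω n)] (P : ∀ n, Measure (Ω n))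
        [∀ n, IsProbabilityMeasure (P n)]
        (N : ∀ n, V n → Ω n → ℕ) (W : ∀ n, V n → ℕ → Ω n → ℕ → V n) (X : ∀ n, Ω n → ℕ → V n),
        (∀ n, (G n).Connected) → (∀ n x, (G n).degree x ≤ d) →
        Tendsto (fun n => Fintype.card (V n)) atTop atTop →
        (∀ n, IsFrogModel (G n) (o n) lam (P n) (N n) (W n) (X n)) →
        Tendsto (fun n => P n {ω | susceptibility (fun v => N n v ω) (fun v i => W n v i ω)
            (X n ω) ≤ ENNReal.ofReal (C * Real.log (Fintype.card (V n)) ^ 5)}) atTop (𝓝 1) := by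
  have hlam' : (0 : ℝ) < (lam : ℝ) := by exact_mod_cast hlam
  obtain ⟨C, hC, hgrowth⟩ := exists_growth (d + 1) (by omega) hlam'
  refine ⟨C, hC, ?_⟩
  intro V _ _ _ _ G _ o Ω _ P _ N W X hconn hdegree hcard hmodel
  have hkey : ∀ ε : ℝ, 0 < ε → ∀ᶠ n in atTop, 1 - ENNReal.ofReal ε ≤
      P n {ω | susceptibility (fun v => N n v ω) (fun v i => W n v i ω)
            (X n ω) ≤ ENNReal.ofReal (C * Real.log (Fintype.card (V n)) ^ 5)} := by
    intro ε hε
    obtain ⟨n0, hn0⟩ := SetModel.asymp.{u, v} (d + 1) (by omega) hlam' hε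
    filter_upwards [hcard.eventually_ge_atTop (max n0 3)] with n hn
    have hn1 : n0 ≤ Fintype.card (V n) := (le_max_left _ _).trans hn
    have hn3 : 3 ≤ Fintype.card (V n) := (le_max_right _ _).trans hn
    have hnt : Nontrivial (V n) := Fintype.one_lt_card_iff_nontrivial.1 (by omega)
    have hdeg : ∀ x, 0 < (G n).degree x :=
      fun x => (hconn n).preconnected.degree_pos_of_nontrivial x
    set L := pL (d + 1) (lam : ℝ) (Fintype.card (V n)) with hL
    have hset := (hmodel n).toSetModel hdeg L
    have hP := hn0 (V n) (G n) (Ω n) (P n) (o n) _ _ hn1 (hconn n)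
      (fun x => (hdegree n x).trans (by omega)) hset
    -- the good event
    set Y : V n → Ω n → Finset (V n) := fun v ω => visSet L (N n v ω, fun i => W n v i ω) with hY
    set F0 : Ω n → Finset (V n) := fun ω => rng L (X n ω) with hF0
    have hmeasR : MeasurableSet {ω | clos (fun v => Y v ω) ∅ (F0 ω) ≠ Finset.univ} := by
      have h1 : Measurable fun ω => (F0 ω, fun v => Y v ω) :=
        hset.measF.prodMk (measurable_pi_lambda _ hset.measY)
      exact h1 (MeasurableSet.of_discrete
        (s := {p : Finset (V n) × (V n → Finset (V n)) | clos p.2 ∅ p.1 ≠ Finset.univ}))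
    have hsub : {ω | clos (fun v => Y v ω) ∅ (F0 ω) ≠ Finset.univ}ᶜ ⊆
        {ω | susceptibility (fun v => N n v ω) (fun v i => W n v i ω)
            (X n ω) ≤ ENNReal.ofReal (C * Real.log (Fintype.card (V n)) ^ 5)} := by
      intro ω hω
      simp only [Set.mem_compl_iff, Set.mem_ofPred_eq, not_not] at hω ⊢
      have hvis : ∀ u, Visited (fun v => N n v ω) (fun v i => W n v i ω) (X n ω) L u := by
        intro u
        rw [visited_iff]
        have : u ∈ clos (fun v => Y v ω) ∅ (F0 ω) := by rw [hω]; exact Finset.mem_univ u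
        exact this
      calc susceptibility (fun v => N n v ω) (fun v i => W n v i ω) (X n ω)
          ≤ (L : ℝ≥0∞) := iInf₂_le L hvis
        _ = ENNReal.ofReal (L : ℝ) := (ENNReal.ofReal_natCast L).symm
        _ ≤ _ := ENNReal.ofReal_le_ofReal (hgrowth _ hn3).2.2
    have hPε : P n {ω | clos (fun v => Y v ω) ∅ (F0 ω) ≠ Finset.univ} ≤ ENNReal.ofReal ε := by
      rw [← ofReal_measureReal (μ := P n)]
      exact ENNReal.ofReal_le_ofReal hP
    calc 1 - ENNReal.ofReal ε
        ≤ 1 - P n {ω | clos (fun v => Y v ω) ∅ (F0 ω) ≠ Finset.univ} :=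
          tsub_le_tsub_left hPε 1
      _ = P n {ω | clos (fun v => Y v ω) ∅ (F0 ω) ≠ Finset.univ}ᶜ :=
          (prob_compl_eq_one_sub hmeasR).symm
      _ ≤ _ := measure_mono hsub
  rw [ENNReal.tendsto_nhds ENNReal.one_ne_top]
  intro ε hε
  by_cases hεtop : ε = ⊤
  · filter_upwards with n
    rw [hεtop]
    simp
  · have hε' : 0 < ε.toReal := ENNReal.toReal_pos hε.ne' hεtop
    filter_upwards [hkey ε.toReal hε'] with n hn
    rw [ENNReal.ofReal_toReal hεtop] at hn
    exact ⟨hn, prob_le_one.trans le_self_add⟩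

end Pool.Agent.Results.MP_82094e_pr.PolylogSusceptibility
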